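import Pool.Agent.X128.QN.D

/-!
# The set of `p`-th roots of a nilpotent quaternionic matrix is path-connected
-/

set_option autoImplicit false

noncomputable section

namespace Pool.Agent.Results.MP_6980f8_al.RootsPathConnected

open Pool.Agent.X128.QN

lemma fc_cont {E : Type} [AddCommGroup E] [Module ℝ E] [TopologicalSpace E] [ContinuousAdd E]
    [ContinuousSMul ℝ E] {f : ℝ → E} (h : FC f) : Continuous f := by
  induction h with
  | single c hc T => exact hc.smul continuous_const
  | add f g _ _ h1 h2 => exact h1.add h2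

/-- right multiplication of row vectors -/
def L {n : ℕ} (M : Matrix (Fin n) (Fin n) (Quaternion ℝ)) : Module.End HH (Fin n → HH) :=
  Matrix.vecMulLinear M

lemma L_apply {n : ℕ} (M : Matrix (Fin n) (Fin n) (Quaternion ℝ)) (v : Fin n → HH) :
    L M v = Matrix.vecMul v M := rfl

lemma L_mul {n : ℕ} (M N : Matrix (Fin n) (Fin n) (Quaternion ℝ)) : L (M * N) = L N * L M := by
  refine LinearMap.ext fun v => ?_
  rw [Module.End.mul_apply, L_apply, L_apply, L_apply, Matrix.vecMul_vecMul]

lemma L_one {n : ℕ} : L (1 : Matrix (Fin n) (Fin n) (Quaternion ℝ)) = 1 := by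
  refine LinearMap.ext fun v => ?_
  rw [L_apply, Matrix.vecMul_one, Module.End.one_apply]

lemma L_pow {n : ℕ} (M : Matrix (Fin n) (Fin n) (Quaternion ℝ)) (k : ℕ) : L (M ^ k) = L M ^ k := by
  induction k with
  | zero => rw [pow_zero, pow_zero, L_one]
  | succ k ih => rw [pow_succ, L_mul, ih, ← pow_succ']

/-- the matrix of an operator on row vectors -/
def G {n : ℕ} : Module.End HH (Fin n → HH) →ₗ[ℝ] Matrix (Fin n) (Fin n) (Quaternion ℝ) where
  toFun T := Matrix.of fun i j => T (Pi.single i 1) j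
  map_add' T T' := by
    ext1 i j
    rfl
  map_smul' r T := by
    ext1 i j
    rfl

lemma G_L {n : ℕ} (M : Matrix (Fin n) (Fin n) (Quaternion ℝ)) : G (L M) = M := by
  ext1 i j
  change Matrix.vecMul (Pi.single i 1) M j = M i j
  rw [Matrix.single_one_vecMul]
  rfl

lemma L_G {n : ℕ} (T : Module.End HH (Fin n → HH)) : L (G T) = T := by
  refine LinearMap.pi_ext' fun i => ?_
  refine LinearMap.ext_ring ?_
  rw [LinearMap.comp_apply, LinearMap.comp_apply, LinearMap.single_apply, L_apply,
    Matrix.single_one_vecMul]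
  rfl

theorem joined {n p : ℕ} {A : Matrix (Fin n) (Fin n) (Quaternion ℝ)} {S T : Module.End HH (Fin n → HH)}
    (h : RJ p (L A) S T) (hS : S ^ p = L A) :
    JoinedIn {X : Matrix (Fin n) (Fin n) (Quaternion ℝ) | X ^ p = A} (G S) (G T) := by
  have key : ∀ T : Module.End HH (Fin n → HH), T ^ p = L A → G T ^ p = A := by
    intro T hT
    rw [← G_L (G T ^ p), L_pow, L_G, hT, G_L]
  induction h with
  | refl => exact JoinedIn.refl (key S hS)
  | tail h1 h2 ih =>
    refine ih.trans ?_
    obtain ⟨Z, hZ, h3, h4, h5⟩ := h2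
    have hc : Continuous (fun t : ℝ => G (Z t)) := fc_cont (hZ.map G)
    refine JoinedIn.ofLine hc.continuousOn (congrArg G h4) (congrArg G h5) ?_
    rintro _ ⟨t, _, rfl⟩
    exact key _ (h3 t)

/-- **MP_6980f8_al, Q1.** For every nilpotent quaternionic matrix `A` and every `p ≥ 1` the set of
`p`-th roots of `A` is empty or path-connected. -/
theorem result (n p : ℕ) (hp : 0 < p) (A : Matrix (Fin n) (Fin n) (Quaternion ℝ))
    (hA : IsNilpotent A) :
    {X : Matrix (Fin n) (Fin n) (Quaternion ℝ) | X ^ p = A} = ∅ ∨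
      IsPathConnected {X : Matrix (Fin n) (Fin n) (Quaternion ℝ) | X ^ p = A} := by
  rcases Set.eq_empty_or_nonempty {X : Matrix (Fin n) (Fin n) (Quaternion ℝ) | X ^ p = A} with h | h
  · exact Or.inl h
  right
  obtain ⟨X, hX⟩ := h
  refine ⟨X, hX, ?_⟩
  intro Y hY
  have hX' : X ^ p = A := hX
  have hY' : Y ^ p = A := hY
  have hLA : IsNilpotent (L A) := by
    obtain ⟨k, hk⟩ := hA
    refine ⟨k, ?_⟩
    rw [← L_pow, hk]
    refine LinearMap.ext fun v => ?_
    rw [L_apply, Matrix.vecMul_zero, LinearMap.zero_apply]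
  have h1 : L X ^ p = L A := by rw [← L_pow, hX']
  have h2 : L Y ^ p = L A := by rw [← L_pow, hY']
  have h3 := main _ (Fin n → HH) p (L A) (L X) (L Y) le_rfl hp hLA h1 h2
  have h4 := joined h3 h1
  rw [G_L, G_L] at h4
  exact h4

end Pool.Agent.Results.MP_6980f8_al.RootsPathConnected
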